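import Pool.Agent.H63.AC.Stm

/-!
# Project AC (helper63), UP: upper bound of the windowed integral
-/

set_option autoImplicit false

namespace Pool.Agent.H263.AC

open Complex MeasureTheory Filter Topology Pool.Agent.H63.AC

theorem up_norm (b T H t : ℝ) (hH : 0 < H) :
    ‖wt T H (ln b t)‖ = Real.exp ((b ^ 2 - (t - T) ^ 2) / H ^ 2) := by
  unfold wt ln
  have hHc : (H : ℂ) ≠ 0 := by exact_mod_cast hH.ne'
  have e1 : ((b : ℂ) + t * I - I * T) ^ 2 / (H : ℂ) ^ 2 =
      (((b ^ 2 - (t - T) ^ 2) / H ^ 2 : ℝ) : ℂ) + ((2 * b * (t - T) / H ^ 2 : ℝ) : ℂ) * I := by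
    push_cast
    field_simp
    ring_nf
    rw [I_sq]
    ring
  rw [e1, Complex.norm_exp]
  congr 1
  simp only [add_re, ofReal_re, mul_re, ofReal_im, I_re, I_im]
  ring

theorem up_cont (b T H : ℝ) : Continuous (fun t : ℝ => wt T H (ln b t)) := by
  unfold wt ln
  fun_prop

theorem up_gauss (H c T : ℝ) (hH : 0 < H) (hc : 0 < c) :
    Integrable (fun t : ℝ => Real.exp (-(c / H ^ 2) * (t - T) ^ 2)) ∧
      ∫ t : ℝ, Real.exp (-(c / H ^ 2) * (t - T) ^ 2) = √(Real.pi / c) * H := by
  have hb : 0 < c / H ^ 2 := by positivity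
  refine ⟨(integrable_exp_neg_mul_sq hb).comp_sub_right T, ?_⟩
  rw [integral_sub_right_eq_self (fun x : ℝ => Real.exp (-(c / H ^ 2) * x ^ 2)) T,
    integral_gaussian]
  have e : Real.pi / (c / H ^ 2) = Real.pi / c * H ^ 2 := by field_simp
  rw [e, Real.sqrt_mul (by positivity), Real.sqrt_sq hH.le]

/-- a linear factor is absorbed by the Gaussian -/
theorem up_lin (H T x : ℝ) (hH : 0 < H) (hT : 0 ≤ T) :
    (1 + T + |x|) * Real.exp (-(x ^ 2 / (2 * H ^ 2))) ≤
      (1 + T + H) * Real.exp (-((1 / 4) / H ^ 2) * x ^ 2) := by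
  set y : ℝ := |x| / H with hy
  have hy0 : 0 ≤ y := by positivity
  have hxy : |x| = H * y := by
    rw [hy]
    field_simp
  have hx2 : x ^ 2 = H ^ 2 * y ^ 2 := by
    rw [← sq_abs, hxy]
    ring
  have e1 : Real.exp (-(x ^ 2 / (2 * H ^ 2))) =
      Real.exp (-(y ^ 2 / 4)) * Real.exp (-((1 / 4) / H ^ 2) * x ^ 2) := by
    rw [← Real.exp_add]
    congr 1
    rw [hx2]
    field_simp
    ring
  rw [e1, ← mul_assoc]
  apply mul_le_mul_of_nonneg_right _ (Real.exp_pos _).le
  have h1 : y * Real.exp (-(y ^ 2 / 4)) ≤ 1 := by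
    rw [Real.exp_neg, ← div_eq_mul_inv, div_le_one (Real.exp_pos _)]
    have := Real.add_one_le_exp (y ^ 2 / 4)
    nlinarith [sq_nonneg (1 - y / 2)]
  have h2 : Real.exp (-(y ^ 2 / 4)) ≤ 1 := by
    rw [Real.exp_le_one_iff]
    have := sq_nonneg y
    linarith
  have h3 : (1 + T) * Real.exp (-(y ^ 2 / 4)) ≤ (1 + T) * 1 :=
    mul_le_mul_of_nonneg_left h2 (by linarith)
  have h4 : H * (y * Real.exp (-(y ^ 2 / 4))) ≤ H * 1 := mul_le_mul_of_nonneg_left h1 hH.le
  rw [hxy]
  nlinarith

theorem t_up (h : S_osc) : S_up := by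
  intro b A β K t0 CM d G γ M hA0 hA1 hd hApp hγc hM hG hGγ hGK
  obtain ⟨C0, K0, t1, ht1, happ⟩ := hApp
  obtain ⟨Co, hCo⟩ := h b A β d hA0 hd
  obtain ⟨hMc, hMb, hMi⟩ := hM
  have hK : 0 ≤ K := by
    have := (norm_nonneg _).trans (hGK 0)
    simpa using this
  have hK0 : 0 ≤ K0 := by
    have h1 := (norm_nonneg _).trans (happ t1 le_rfl)
    have h2 : 0 < t1 ^ (A - 1) := Real.rpow_pos_of_pos (by linarith) _
    by_contra hc
    push Not at hc
    have := mul_neg_of_neg_of_pos hc h2
    linarith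
  set D0 : ℝ := ‖C0‖ * Co + K0 * 2 * (Real.exp (b ^ 2) * √(Real.pi / 1)) with hD0
  set C2 : ℝ := K * Real.exp (b ^ 2) * (3 * √(Real.pi / (1 / 4))) with hC2
  refine ⟨|CM * D0| + |C2|, 2 * max (max t0 t1) 1, ?_⟩
  intro T H hT0 hH1 hHT
  have hHpos : 0 < H := by linarith
  have hm1 : max t0 t1 ≤ max (max t0 t1) 1 := le_max_left _ _
  have hm2 : (1 : ℝ) ≤ max (max t0 t1) 1 := le_max_right _ _
  have hm3 : t0 ≤ max t0 t1 := le_max_left _ _
  have hm4 : t1 ≤ max t0 t1 := le_max_right _ _
  have hT2 : 2 ≤ T := by linarith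
  have hTpos : 0 < T := by linarith
  have hTt0 : t0 ≤ T / 2 := by linarith
  have hTt1 : t1 ≤ T / 2 := by linarith
  -- the weight
  set w : ℝ → ℂ := fun t => wt T H (ln b t) with hw
  have hwc : Continuous w := up_cont b T H
  have hwn : ∀ t, ‖w t‖ = Real.exp ((b ^ 2 - (t - T) ^ 2) / H ^ 2) := fun t =>
    up_norm b T H t hHpos
  have hH2 : 1 ≤ H ^ 2 := by nlinarith
  have hbH : b ^ 2 / H ^ 2 ≤ b ^ 2 := div_le_self (sq_nonneg b) hH2
  -- general bound of the integrand
  have hbd : ∀ t, ‖G t * w t‖ ≤ K * Real.exp (b ^ 2) *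
      ((1 + T + |t - T|) * Real.exp (-((t - T) ^ 2 / H ^ 2))) := by
    intro t
    rw [norm_mul, hwn]
    have h1 : ‖G t‖ ≤ K * (1 + T + |t - T|) := by
      refine (hGK t).trans (mul_le_mul_of_nonneg_left ?_ hK)
      have h2 : |t| ≤ |t - T| + |T| := by
        have := abs_add_le (t - T) T
        rwa [sub_add_cancel] at this
      rw [abs_of_pos hTpos] at h2
      linarith
    have h2 : Real.exp ((b ^ 2 - (t - T) ^ 2) / H ^ 2) ≤
        Real.exp (b ^ 2) * Real.exp (-((t - T) ^ 2 / H ^ 2)) := by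
      rw [← Real.exp_add]
      apply Real.exp_le_exp.mpr
      rw [sub_div]
      linarith
    calc ‖G t‖ * Real.exp ((b ^ 2 - (t - T) ^ 2) / H ^ 2)
        ≤ (K * (1 + T + |t - T|)) * (Real.exp (b ^ 2) * Real.exp (-((t - T) ^ 2 / H ^ 2))) :=
          mul_le_mul h1 h2 (Real.exp_pos _).le (by positivity)
      _ = _ := by ring
  obtain ⟨hg1, hg2⟩ := up_gauss H (1 / 4) T hHpos (by norm_num)
  obtain ⟨hg3, hg4⟩ := up_gauss H 1 T hHpos one_pos
  have hhalf : ∀ t, Real.exp (-((t - T) ^ 2 / H ^ 2)) = Real.exp (-((t - T) ^ 2 / (2 * H ^ 2))) *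
      Real.exp (-((t - T) ^ 2 / (2 * H ^ 2))) := by
    intro t
    rw [← Real.exp_add]
    congr 1
    field_simp
    ring
  have hGw : Integrable (fun t => G t * w t) := by
    refine Integrable.mono' (g := fun t => K * Real.exp (b ^ 2) * ((1 + T + H) *
      Real.exp (-((1 / 4) / H ^ 2) * (t - T) ^ 2))) ?_ (hG.mul hwc).aestronglyMeasurable ?_
    · exact (hg1.const_mul _).const_mul _
    · refine Filter.Eventually.of_forall fun t => ?_
      refine (hbd t).trans ?_
      refine mul_le_mul_of_nonneg_left ?_ (by positivity)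
      refine le_trans ?_ (up_lin H T (t - T) hHpos hTpos.le)
      refine mul_le_mul_of_nonneg_left ?_ (by positivity)
      rw [hhalf]
      refine mul_le_of_le_one_right (Real.exp_pos _).le ?_
      rw [Real.exp_le_one_iff]
      have : 0 ≤ (t - T) ^ 2 / (2 * H ^ 2) := by positivity
      linarith
  set s : Set ℝ := Set.Ioc (T / 2) (3 * T / 2) with hs
  have hsm : MeasurableSet s := measurableSet_Ioc
  have hsplit := integral_add_compl hsm hGw
  -- the rest
  have hrest : ‖∫ t in sᶜ, G t * w t‖ ≤ C2 * (T ^ 2 * Real.exp (-(T ^ 2 / (8 * H ^ 2)))) := by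
    have h1 : ‖∫ t in sᶜ, G t * w t‖ ≤ ∫ t in sᶜ, (Real.exp (-(T ^ 2 / (8 * H ^ 2))) *
        (K * Real.exp (b ^ 2) * ((1 + T + H) * Real.exp (-((1 / 4) / H ^ 2) * (t - T) ^ 2)))) := by
      refine norm_integral_le_of_norm_le ?_ ?_
      · exact (((hg1.const_mul _).const_mul _).const_mul _).integrableOn
      · refine (ae_restrict_iff' hsm.compl).mpr (Filter.Eventually.of_forall fun t ht => ?_)
        refine (hbd t).trans ?_
        have h2 : T ^ 2 / 4 ≤ (t - T) ^ 2 := by
          rw [hs, Set.mem_compl_iff, Set.mem_Ioc, not_and_or, not_lt, not_le] at ht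
          rcases ht with ht | ht
          · nlinarith
          · nlinarith
        have h3 : Real.exp (-((t - T) ^ 2 / (2 * H ^ 2))) ≤ Real.exp (-(T ^ 2 / (8 * H ^ 2))) := by
          apply Real.exp_le_exp.mpr
          have h4 : T ^ 2 / (8 * H ^ 2) = (T ^ 2 / 4) / (2 * H ^ 2) := by
            field_simp
            ring
          rw [h4]
          have h5 : (T ^ 2 / 4) / (2 * H ^ 2) ≤ (t - T) ^ 2 / (2 * H ^ 2) :=
            div_le_div_of_nonneg_right h2 (by positivity)
          linarith
        calc K * Real.exp (b ^ 2) * ((1 + T + |t - T|) * Real.exp (-((t - T) ^ 2 / H ^ 2)))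
            = K * Real.exp (b ^ 2) * (((1 + T + |t - T|) *
              Real.exp (-((t - T) ^ 2 / (2 * H ^ 2)))) *
                Real.exp (-((t - T) ^ 2 / (2 * H ^ 2)))) := by
              rw [hhalf]
              ring
          _ ≤ K * Real.exp (b ^ 2) * (((1 + T + H) *
              Real.exp (-((1 / 4) / H ^ 2) * (t - T) ^ 2)) *
                Real.exp (-(T ^ 2 / (8 * H ^ 2)))) := by
              refine mul_le_mul_of_nonneg_left ?_ (by positivity)
              exact mul_le_mul (up_lin H T (t - T) hHpos hTpos.le) h3 (Real.exp_pos _).le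
                (by positivity)
          _ = _ := by ring
    have h2 : ∫ t in sᶜ, (Real.exp (-(T ^ 2 / (8 * H ^ 2))) *
        (K * Real.exp (b ^ 2) * ((1 + T + H) * Real.exp (-((1 / 4) / H ^ 2) * (t - T) ^ 2)))) ≤
        ∫ t, (Real.exp (-(T ^ 2 / (8 * H ^ 2))) *
        (K * Real.exp (b ^ 2) * ((1 + T + H) * Real.exp (-((1 / 4) / H ^ 2) * (t - T) ^ 2)))) := by
      refine setIntegral_le_integral (((hg1.const_mul _).const_mul _).const_mul _) ?_
      exact Filter.Eventually.of_forall fun t => by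
        show 0 ≤ Real.exp (-(T ^ 2 / (8 * H ^ 2))) *
          (K * Real.exp (b ^ 2) * ((1 + T + H) * Real.exp (-((1 / 4) / H ^ 2) * (t - T) ^ 2)))
        positivity
    have hI : ∫ t, (Real.exp (-(T ^ 2 / (8 * H ^ 2))) *
        (K * Real.exp (b ^ 2) * ((1 + T + H) * Real.exp (-((1 / 4) / H ^ 2) * (t - T) ^ 2)))) =
        Real.exp (-(T ^ 2 / (8 * H ^ 2))) * (K * Real.exp (b ^ 2) *
          ((1 + T + H) * (√(Real.pi / (1 / 4)) * H))) := by
      rw [integral_const_mul, integral_const_mul, integral_const_mul, hg2]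
    rw [hI] at h2
    refine (h1.trans h2).trans ?_
    have h3 : (1 + T + H) * (√(Real.pi / (1 / 4)) * H) ≤ 3 * √(Real.pi / (1 / 4)) * T ^ 2 := by
      have h4 : (1 + T + H) * H ≤ 3 * T * T := by
        have h5 : 1 + T + H ≤ 3 * T := by linarith
        exact mul_le_mul h5 hHT hHpos.le (by positivity)
      have h5 := mul_le_mul_of_nonneg_left h4 (Real.sqrt_nonneg (Real.pi / (1 / 4)))
      nlinarith
    calc Real.exp (-(T ^ 2 / (8 * H ^ 2))) * (K * Real.exp (b ^ 2) *
          ((1 + T + H) * (√(Real.pi / (1 / 4)) * H)))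
        ≤ Real.exp (-(T ^ 2 / (8 * H ^ 2))) * (K * Real.exp (b ^ 2) *
          (3 * √(Real.pi / (1 / 4)) * T ^ 2)) := by
          refine mul_le_mul_of_nonneg_left (mul_le_mul_of_nonneg_left h3 (by positivity))
            (Real.exp_pos _).le
      _ = _ := by
          rw [hC2]
          ring
  -- the window
  have hwin : ‖∫ t in s, G t * w t‖ ≤ CM * (D0 * T ^ (A + 1 / 2)) := by
    have hγi : IntegrableOn (fun t => γ t * w t) s := by
      have h1 : ContinuousOn (fun t => γ t * w t) (Set.Icc (T / 2) (3 * T / 2)) := by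
        refine (hγc.mono ?_).mul hwc.continuousOn
        intro t ht
        exact le_trans hTt0 ht.1
      exact (h1.integrableOn_Icc).mono_set Set.Ioc_subset_Icc_self
    have h1 : ∫ t in s, G t * w t = ∫ t, s.indicator (fun t => γ t * w t) t * M t := by
      rw [← integral_indicator hsm]
      refine integral_congr_ae (Filter.Eventually.of_forall fun t => ?_)
      show s.indicator (fun t => G t * w t) t = s.indicator (fun t => γ t * w t) t * M t
      by_cases ht : t ∈ s
      · rw [Set.indicator_of_mem ht, Set.indicator_of_mem ht,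
          hGγ t (le_trans hTt0 (le_of_lt ht.1))]
        ring
      · rw [Set.indicator_of_notMem ht, Set.indicator_of_notMem ht, zero_mul]
    rw [h1]
    refine hMi _ _ (hγi.integrable_indicator hsm) ?_
    intro l
    -- the Fourier transform of the window
    have e1 : ∫ t, s.indicator (fun t => γ t * w t) t * cexp (I * ((l * t : ℝ) : ℂ)) =
        ∫ t in s, γ t * w t * cexp (I * ((l * t : ℝ) : ℂ)) := by
      rw [← integral_indicator hsm]
      refine integral_congr_ae (Filter.Eventually.of_forall fun t => ?_)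
      show s.indicator (fun t => γ t * w t) t * cexp (I * ((l * t : ℝ) : ℂ)) =
        s.indicator (fun t => γ t * w t * cexp (I * ((l * t : ℝ) : ℂ))) t
      by_cases ht : t ∈ s
      · rw [Set.indicator_of_mem ht, Set.indicator_of_mem ht]
      · rw [Set.indicator_of_notMem ht, Set.indicator_of_notMem ht, zero_mul]
    rw [e1]
    have hce : Continuous (fun t : ℝ => cexp (I * ((l * t : ℝ) : ℂ))) := by fun_prop
    have hnorm1 : ∀ t : ℝ, ‖cexp (I * ((l * t : ℝ) : ℂ))‖ = 1 := fun t => by
      rw [mul_comm, Complex.norm_exp_ofReal_mul_I]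
    have hmain : IntervalIntegrable (fun t : ℝ => wt T H (ln b t) * ((t ^ A : ℝ) : ℂ) *
        cexp (I * ((d * (t * Real.log t - β * t) + l * t : ℝ) : ℂ))) volume (T / 2) (3 * T / 2) := by
      refine ContinuousOn.intervalIntegrable ?_
      rw [Set.uIcc_of_le (by linarith)]
      have hne : ∀ t ∈ Set.Icc (T / 2) (3 * T / 2), t ≠ 0 := fun t ht => by
        have := ht.1
        intro h0
        rw [h0] at this
        linarith
      refine ((up_cont b T H).continuousOn.mul ?_).mul ?_
      · refine Complex.continuous_ofReal.comp_continuousOn ?_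
        exact continuousOn_id.rpow_const fun t ht => Or.inl (hne t ht)
      · refine Complex.continuous_exp.comp_continuousOn ?_
        refine continuousOn_const.mul (Complex.continuous_ofReal.comp_continuousOn ?_)
        have hlog : ContinuousOn Real.log (Set.Icc (T / 2) (3 * T / 2)) :=
          Real.continuousOn_log.mono fun t ht => hne t ht
        fun_prop
    have e2 : ∫ t in s, γ t * w t * cexp (I * ((l * t : ℝ) : ℂ)) =
        C0 * (∫ t in (T / 2)..(3 * T / 2), wt T H (ln b t) * ((t ^ A : ℝ) : ℂ) *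
          cexp (I * ((d * (t * Real.log t - β * t) + l * t : ℝ) : ℂ))) +
        ∫ t in s, (γ t - C0 * ((t ^ A : ℝ) : ℂ) *
          cexp (I * ((d * (t * Real.log t - β * t) : ℝ) : ℂ))) * w t *
            cexp (I * ((l * t : ℝ) : ℂ)) := by
      rw [← intervalIntegral.integral_const_mul, intervalIntegral.integral_of_le (by linarith)]
      have hm' := ((intervalIntegrable_iff_integrableOn_Ioc_of_le
        (by linarith : T / 2 ≤ 3 * T / 2)).mp hmain).const_mul C0
      have hfull : IntegrableOn (fun t => γ t * w t * cexp (I * ((l * t : ℝ) : ℂ))) s := by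
        refine Integrable.mono' hγi.norm ?_ ?_
        · exact hγi.aestronglyMeasurable.mul hce.aestronglyMeasurable
        · refine Filter.Eventually.of_forall fun t => ?_
          rw [norm_mul, hnorm1, mul_one]
      have e3 : ∀ t : ℝ, (γ t - C0 * ((t ^ A : ℝ) : ℂ) *
          cexp (I * ((d * (t * Real.log t - β * t) : ℝ) : ℂ))) * w t *
            cexp (I * ((l * t : ℝ) : ℂ)) = γ t * w t * cexp (I * ((l * t : ℝ) : ℂ)) -
          C0 * (wt T H (ln b t) * ((t ^ A : ℝ) : ℂ) *
          cexp (I * ((d * (t * Real.log t - β * t) + l * t : ℝ) : ℂ))) := by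
        intro t
        have e4 : cexp (I * ((d * (t * Real.log t - β * t) + l * t : ℝ) : ℂ)) =
            cexp (I * ((d * (t * Real.log t - β * t) : ℝ) : ℂ)) *
              cexp (I * ((l * t : ℝ) : ℂ)) := by
          rw [← Complex.exp_add]
          congr 1
          push_cast
          ring
        rw [e4]
        show _ = γ t * wt T H (ln b t) * _ - _
        ring
      have e5 : ∫ t in s, (γ t - C0 * ((t ^ A : ℝ) : ℂ) *
          cexp (I * ((d * (t * Real.log t - β * t) : ℝ) : ℂ))) * w t *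
            cexp (I * ((l * t : ℝ) : ℂ)) = ∫ t in s, (γ t * w t * cexp (I * ((l * t : ℝ) : ℂ)) -
          C0 * (wt T H (ln b t) * ((t ^ A : ℝ) : ℂ) *
          cexp (I * ((d * (t * Real.log t - β * t) + l * t : ℝ) : ℂ)))) :=
        integral_congr_ae (Filter.Eventually.of_forall fun t => e3 t)
      rw [e5, integral_sub hfull hm']
      ring
    rw [e2]
    have hosc := hCo T H hH1 hHT l
    have herr : ‖∫ t in s, (γ t - C0 * ((t ^ A : ℝ) : ℂ) *
          cexp (I * ((d * (t * Real.log t - β * t) : ℝ) : ℂ))) * w t *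
            cexp (I * ((l * t : ℝ) : ℂ))‖ ≤
        K0 * 2 * (Real.exp (b ^ 2) * √(Real.pi / 1)) * T ^ (A + 1 / 2) := by
      have hTA : (T / 2) ^ (A - 1) ≤ 2 * T ^ (A - 1) := by
        rw [Real.div_rpow hTpos.le zero_le_two, div_eq_mul_inv, mul_comm,
          ← Real.rpow_neg zero_le_two]
        refine mul_le_mul_of_nonneg_right ?_ (Real.rpow_nonneg hTpos.le _)
        calc (2 : ℝ) ^ (-(A - 1)) ≤ 2 ^ (1 : ℝ) :=
              Real.rpow_le_rpow_of_exponent_le one_le_two (by linarith)
          _ = 2 := Real.rpow_one 2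
      have h2 : ‖∫ t in s, (γ t - C0 * ((t ^ A : ℝ) : ℂ) *
          cexp (I * ((d * (t * Real.log t - β * t) : ℝ) : ℂ))) * w t *
            cexp (I * ((l * t : ℝ) : ℂ))‖ ≤ ∫ t in s, (K0 * (T / 2) ^ (A - 1) *
              (Real.exp (b ^ 2) * Real.exp (-(1 / H ^ 2) * (t - T) ^ 2))) := by
        refine norm_integral_le_of_norm_le ?_ ?_
        · exact ((hg3.const_mul _).const_mul _).integrableOn
        · refine (ae_restrict_iff' hsm).mpr (Filter.Eventually.of_forall fun t ht => ?_)
          have htT : T / 2 < t := ht.1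
          have ht0 : 0 < t := by linarith
          rw [norm_mul, norm_mul, hnorm1, mul_one, hwn]
          have h3 := happ t (hTt1.trans htT.le)
          have h4 : t ^ (A - 1) ≤ (T / 2) ^ (A - 1) :=
            Real.rpow_le_rpow_of_nonpos (by linarith) htT.le (by linarith)
          have h5 : Real.exp ((b ^ 2 - (t - T) ^ 2) / H ^ 2) ≤
              Real.exp (b ^ 2) * Real.exp (-(1 / H ^ 2) * (t - T) ^ 2) := by
            rw [← Real.exp_add]
            apply Real.exp_le_exp.mpr
            rw [sub_div]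
            have : -(1 / H ^ 2) * (t - T) ^ 2 = -((t - T) ^ 2 / H ^ 2) := by ring
            rw [this]
            linarith
          refine mul_le_mul (h3.trans (mul_le_mul_of_nonneg_left h4 hK0)) h5 (Real.exp_pos _).le ?_
          exact mul_nonneg hK0 (Real.rpow_nonneg (by linarith) _)
      have h3 : ∫ t in s, (K0 * (T / 2) ^ (A - 1) *
              (Real.exp (b ^ 2) * Real.exp (-(1 / H ^ 2) * (t - T) ^ 2))) ≤
          ∫ t, (K0 * (T / 2) ^ (A - 1) *
              (Real.exp (b ^ 2) * Real.exp (-(1 / H ^ 2) * (t - T) ^ 2))) := by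
        refine setIntegral_le_integral ((hg3.const_mul _).const_mul _) ?_
        exact Filter.Eventually.of_forall fun t => by
          show 0 ≤ K0 * (T / 2) ^ (A - 1) *
              (Real.exp (b ^ 2) * Real.exp (-(1 / H ^ 2) * (t - T) ^ 2))
          have : 0 ≤ (T / 2) ^ (A - 1) := Real.rpow_nonneg (by linarith) _
          positivity
      have hI : ∫ t, (K0 * (T / 2) ^ (A - 1) *
              (Real.exp (b ^ 2) * Real.exp (-(1 / H ^ 2) * (t - T) ^ 2))) =
          K0 * (T / 2) ^ (A - 1) * (Real.exp (b ^ 2) * (√(Real.pi / 1) * H)) := by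
        rw [integral_const_mul, integral_const_mul, hg4]
      rw [hI] at h3
      refine (h2.trans h3).trans ?_
      have h4 : (T / 2) ^ (A - 1) * H ≤ 2 * T ^ (A + 1 / 2) := by
        calc (T / 2) ^ (A - 1) * H ≤ (2 * T ^ (A - 1)) * T :=
              mul_le_mul hTA hHT hHpos.le (by positivity)
          _ = 2 * T ^ A := by
              rw [Real.rpow_sub_one hTpos.ne']
              field_simp
          _ ≤ 2 * T ^ (A + 1 / 2) := by
              refine mul_le_mul_of_nonneg_left ?_ zero_le_two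
              exact Real.rpow_le_rpow_of_exponent_le (by linarith) (by linarith)
      calc K0 * (T / 2) ^ (A - 1) * (Real.exp (b ^ 2) * (√(Real.pi / 1) * H))
          = K0 * (Real.exp (b ^ 2) * √(Real.pi / 1)) * ((T / 2) ^ (A - 1) * H) := by ring
        _ ≤ K0 * (Real.exp (b ^ 2) * √(Real.pi / 1)) * (2 * T ^ (A + 1 / 2)) :=
            mul_le_mul_of_nonneg_left h4 (by positivity)
        _ = _ := by ring
    refine (norm_add_le _ _).trans ?_
    rw [norm_mul]
    have h5 := mul_le_mul_of_nonneg_left hosc (norm_nonneg C0)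
    rw [hD0, add_mul]
    refine add_le_add ?_ herr
    rw [mul_assoc]
    exact h5
  -- conclusion
  rw [← hsplit]
  refine (norm_add_le _ _).trans ?_
  refine add_le_add (hwin.trans ?_) (hrest.trans ?_)
  · rw [← mul_assoc]
    refine mul_le_mul_of_nonneg_right ?_ (Real.rpow_nonneg hTpos.le _)
    have := le_abs_self (CM * D0)
    have := abs_nonneg C2
    linarith
  · refine mul_le_mul_of_nonneg_right ?_ (by positivity)
    have := le_abs_self C2
    have := abs_nonneg (CM * D0)
    linarith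

end Pool.Agent.H263.AC
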